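import Pool.Agent.H717.PM.Stm
import Pool.Graph.R_seed8.H671R2.PolyAuto

/-!
# The verifiers for multi-tree and multi-interval PCGs are polynomial-time (task PCHK of helper717)
-/

set_option autoImplicit false

namespace Pool.Agent.H100.PM

open Pool.Agent.NPC Pool.Agent.H622R2 Pool.Agent.H717.PM

variable {α : Type} [TEnc α]

theorem poly_entN {M : α → List (List ℕ)} {i j : α → ℕ} (hM : Poly M) (hi : Poly i)
    (hj : Poly j) : Poly (fun a => ent (M a) (i a) (j a)) := by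
  unfold ent
  exact Poly.getD (Poly.getD hM hi (Pool.Agent.NPC.Poly.const [])) hj (Pool.Agent.NPC.Poly.const 0)

theorem poly_entB {M : α → List (List Bool)} {i j : α → ℕ} (hM : Poly M) (hi : Poly i)
    (hj : Poly j) : Poly (fun a => entry (M a) (i a) (j a)) := by
  unfold entry
  exact Poly.getD (Poly.getD hM hi (Pool.Agent.NPC.Poly.const [])) hj (Pool.Agent.NPC.Poly.const false)

theorem poly_adjM {M : α → List (List Bool)} {i j : α → ℕ} (hM : Poly M) (hi : Poly i)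
    (hj : Poly j) : Poly (fun a => adjM (M a) (i a) (j a)) := by
  unfold adjM
  exact Poly.or (poly_entB hM hi hj) (poly_entB hM hj hi)

theorem poly_inI {e : α → List (List ℕ) × (ℕ × ℕ)} {i j : α → ℕ} (he : Poly e) (hi : Poly i)
    (hj : Poly j) : Poly (fun a => inI (e a) (i a) (j a)) := by
  unfold inI
  exact Poly.and (Poly.decide_le (Poly.fst (Poly.snd he)) (poly_entN (Poly.fst he) hi hj))
    (Poly.decide_le (poly_entN (Poly.fst he) hi hj) (Poly.snd (Poly.snd he)))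

theorem poly_le4 {M : α → List (List ℕ)} {a₁ a₂ a₃ a₄ a₅ a₆ a₇ a₈ : α → ℕ} (hM : Poly M)
    (h1 : Poly a₁) (h2 : Poly a₂) (h3 : Poly a₃) (h4 : Poly a₄) (h5 : Poly a₅) (h6 : Poly a₆)
    (h7 : Poly a₇) (h8 : Poly a₈) :
    Poly (fun a => decide (ent (M a) (a₁ a) (a₂ a) + ent (M a) (a₃ a) (a₄ a) ≤
      ent (M a) (a₅ a) (a₆ a) + ent (M a) (a₇ a) (a₈ a))) :=
  Poly.decide_le (Poly.add (poly_entN hM h1 h2) (poly_entN hM h3 h4))
    (Poly.add (poly_entN hM h5 h6) (poly_entN hM h7 h8))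

theorem poly_okD {β : Type} [TEnc β] {L : α → List β} {M : α → List (List ℕ)} (hL : Poly L)
    (hM : Poly M) : Poly (fun a => okD (L a).length (M a)) := by
  unfold okD
  have hL1 : Poly (fun p : α × ℕ => L p.1) := hL.comp (Poly.fst Poly.id)
  have hM1 : Poly (fun p : α × ℕ => M p.1) := hM.comp (Poly.fst Poly.id)
  have hL2 : Poly (fun p : (α × ℕ) × ℕ => L p.1.1) := hL1.comp (Poly.fst Poly.id)
  have hM2 : Poly (fun p : (α × ℕ) × ℕ => M p.1.1) := hM1.comp (Poly.fst Poly.id)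
  have hL3 : Poly (fun p : ((α × ℕ) × ℕ) × ℕ => L p.1.1.1) := hL2.comp (Poly.fst Poly.id)
  have hM3 : Poly (fun p : ((α × ℕ) × ℕ) × ℕ => M p.1.1.1) := hM2.comp (Poly.fst Poly.id)
  have hM4 : Poly (fun p : (((α × ℕ) × ℕ) × ℕ) × ℕ => M p.1.1.1.1) := hM3.comp (Poly.fst Poly.id)
  have hx1 : Poly (fun p : α × ℕ => p.2) := Poly.snd Poly.id
  have hx2 : Poly (fun p : (α × ℕ) × ℕ => p.1.2) := Poly.snd (Poly.fst Poly.id)
  have hy2 : Poly (fun p : (α × ℕ) × ℕ => p.2) := Poly.snd Poly.id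
  have hx4 : Poly (fun p : (((α × ℕ) × ℕ) × ℕ) × ℕ => p.1.1.1.2) :=
    Poly.snd (Poly.fst (Poly.fst (Poly.fst Poly.id)))
  have hy4 : Poly (fun p : (((α × ℕ) × ℕ) × ℕ) × ℕ => p.1.1.2) :=
    Poly.snd (Poly.fst (Poly.fst Poly.id))
  have hz4 : Poly (fun p : (((α × ℕ) × ℕ) × ℕ) × ℕ => p.1.2) := Poly.snd (Poly.fst Poly.id)
  have hw4 : Poly (fun p : (((α × ℕ) × ℕ) × ℕ) × ℕ => p.2) := Poly.snd Poly.id
  refine Poly.all (Poly.range_length hL) (Poly.and (Poly.dec_eq (poly_entN hM1 hx1 hx1)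
    (Pool.Agent.NPC.Poly.const 0)) ?_)
  refine Poly.all (Poly.range_length hL1) (Poly.and (Poly.dec_eq (poly_entN hM2 hx2 hy2)
    (poly_entN hM2 hy2 hx2)) ?_)
  refine Poly.all (Poly.range_length hL2) ?_
  refine Poly.all (Poly.range_length hL3) ?_
  exact Poly.or (poly_le4 hM4 hx4 hy4 hz4 hw4 hx4 hz4 hy4 hw4)
    (poly_le4 hM4 hx4 hy4 hz4 hw4 hx4 hw4 hy4 hz4)

/-- the head of the two verifiers with lists of matrices -/
theorem poly_head {M : α → List (List Bool)} {k : α → ℕ} {c : α → Crt} (hM : Poly M)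
    (hk : Poly k) (hc : Poly c) {b : α → Bool} (hb : Poly b) :
    Poly (fun a => (decide (1 ≤ k a) && !decide ((M a).length = 1)) &&
      (!decide ((c a).length = 0) && (decide ((c a).length ≤ k a) &&
      (((c a).all fun e => okD (M a).length e.1) && b a)))) := by
  refine Poly.and (Poly.and (Poly.decide_le (Pool.Agent.NPC.Poly.const 1) hk)
    (Poly.not (Poly.dec_eq (Poly.length hM) (Pool.Agent.NPC.Poly.const 1)))) ?_
  refine Poly.and (Poly.not (Poly.dec_eq (Poly.length hc) (Pool.Agent.NPC.Poly.const 0))) ?_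
  refine Poly.and (Poly.decide_le (Poly.length hc) hk) ?_
  refine Poly.and ?_ hb
  refine Poly.all hc ?_
  exact poly_okD (hM.comp (Poly.fst Poly.id)) (Poly.fst (Poly.snd Poly.id))

/-- pairs of vertices -/
theorem poly_pairs {M : α → List (List Bool)} (hM : Poly M) {f : α → ℕ → ℕ → Bool}
    (hf : Poly (fun p : (α × ℕ) × ℕ => f p.1.1 p.1.2 p.2)) :
    Poly (fun a => (List.range (M a).length).all fun x => (List.range (M a).length).all fun y =>
      decide (x = y) || decide (adjM (M a) x y = f a x y)) := by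
  have hM1 : Poly (fun p : α × ℕ => M p.1) := hM.comp (Poly.fst Poly.id)
  have hM2 : Poly (fun p : (α × ℕ) × ℕ => M p.1.1) := hM1.comp (Poly.fst Poly.id)
  have hx2 : Poly (fun p : (α × ℕ) × ℕ => p.1.2) := Poly.snd (Poly.fst Poly.id)
  have hy2 : Poly (fun p : (α × ℕ) × ℕ => p.2) := Poly.snd Poly.id
  refine Poly.all (Poly.range_length hM) ?_
  refine Poly.all (Poly.range_length hM1) ?_
  exact Poly.or (Poly.dec_eq hx2 hy2) (Poly.dec_eq (poly_adjM hM2 hx2 hy2) hf)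

theorem poly_chkOr : Poly chkOr := by
  unfold chkOr
  refine poly_head (Poly.fst (Poly.fst Poly.id)) (Poly.snd (Poly.fst Poly.id))
    (Poly.snd Poly.id) (poly_pairs (Poly.fst (Poly.fst Poly.id)) ?_)
  refine Poly.any (Poly.snd (Poly.fst (Poly.fst Poly.id))) ?_
  exact poly_inI (Poly.snd Poly.id) (Poly.snd (Poly.fst (Poly.fst Poly.id)))
    (Poly.snd (Poly.fst Poly.id))

theorem poly_chkAnd : Poly chkAnd := by
  unfold chkAnd
  refine poly_head (Poly.fst (Poly.fst Poly.id)) (Poly.snd (Poly.fst Poly.id))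
    (Poly.snd Poly.id) (poly_pairs (Poly.fst (Poly.fst Poly.id)) ?_)
  refine Poly.all (Poly.snd (Poly.fst (Poly.fst Poly.id))) ?_
  exact poly_inI (Poly.snd Poly.id) (Poly.snd (Poly.fst (Poly.fst Poly.id)))
    (Poly.snd (Poly.fst Poly.id))

theorem poly_chkInt : Poly chkInt := by
  unfold chkInt
  have hM : Poly (fun p : (List (List Bool) × ℕ) × (List (List ℕ) × List (ℕ × ℕ)) => p.1.1) :=
    Poly.fst (Poly.fst Poly.id)
  have hk : Poly (fun p : (List (List Bool) × ℕ) × (List (List ℕ) × List (ℕ × ℕ)) => p.1.2) :=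
    Poly.snd (Poly.fst Poly.id)
  have hD : Poly (fun p : (List (List Bool) × ℕ) × (List (List ℕ) × List (ℕ × ℕ)) => p.2.1) :=
    Poly.fst (Poly.snd Poly.id)
  have hc : Poly (fun p : (List (List Bool) × ℕ) × (List (List ℕ) × List (ℕ × ℕ)) => p.2.2) :=
    Poly.snd (Poly.snd Poly.id)
  have hc1 := hc.comp (Poly.fst (β := (List (List Bool) × ℕ) × (List (List ℕ) × List (ℕ × ℕ)))
    (γ := ℕ) Poly.id)
  have hc2 := hc1.comp (Poly.fst
    (β := ((List (List Bool) × ℕ) × (List (List ℕ) × List (ℕ × ℕ))) × ℕ) (γ := ℕ) Poly.id)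
  refine Poly.and (Poly.and (Poly.decide_le (Pool.Agent.NPC.Poly.const 1) hk)
    (Poly.not (Poly.dec_eq (Poly.length hM) (Pool.Agent.NPC.Poly.const 1)))) ?_
  refine Poly.and (poly_okD hM hD) ?_
  refine Poly.and (Poly.decide_le (Poly.length hc) hk) ?_
  refine Poly.and ?_ (poly_pairs hM ?_)
  · refine Poly.all (Poly.range_length hc) ?_
    refine Poly.all (Poly.range_length hc1) ?_
    have hi := Poly.snd (Poly.fst (β := ((List (List Bool) × ℕ) ×
      (List (List ℕ) × List (ℕ × ℕ))) × ℕ) (γ := ℕ) Poly.id)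
    have hj := Poly.snd (β := ((List (List Bool) × ℕ) ×
      (List (List ℕ) × List (ℕ × ℕ))) × ℕ) (γ := ℕ) Poly.id
    refine Poly.or (Poly.dec_eq hi hj) (Poly.or ?_ ?_)
    · exact Poly.decide_lt (Poly.snd (Poly.getD hc2 hi (Pool.Agent.NPC.Poly.const (0, 0))))
        (Poly.fst (Poly.getD hc2 hj (Pool.Agent.NPC.Poly.const (0, 0))))
    · exact Poly.decide_lt (Poly.snd (Poly.getD hc2 hj (Pool.Agent.NPC.Poly.const (0, 0))))
        (Poly.fst (Poly.getD hc2 hi (Pool.Agent.NPC.Poly.const (0, 0))))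
  · refine Poly.any (Poly.snd (Poly.snd (Poly.fst (Poly.fst Poly.id)))) ?_
    exact poly_inI (Poly.pair (Poly.fst (Poly.snd (Poly.fst (Poly.fst (Poly.fst Poly.id)))))
      (Poly.snd Poly.id)) (Poly.snd (Poly.fst (Poly.fst Poly.id))) (Poly.snd (Poly.fst Poly.id))

theorem t_pchk : Pool.Agent.H717.PM.S_pchk := ⟨poly_chkOr, poly_chkAnd, poly_chkInt⟩

end Pool.Agent.H100.PM
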